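import Pool.Agent.Helper37.Prim.AffineEven

/-!
# The exceptions among soluble and affine multiply transitive groups (MP_13dc8a_al)

`n = Nat.card X` is the degree. `MulAction.IsMultiplyPretransitive`,
`MulAction.IsMultiplyPreprimitive` and `MulAction.IsPreprimitive G (Set.powersetCard X t)` are
`t`-transitivity, `t`-primitivity and `t`-set primitivity; `SteinerPrimitive` and the four kinds of
exceptions `ExcA`, `ExcB`, `ExcC`, `ExcD` are defined in `Pool/Agent/Helper37/Prim/Defs.lean`,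
`tv ω v`, the symplectic transvection `x ↦ x + ω(x, v) v`, in `Pool/Agent/Helper37/Prim/Symp.lean`
and two matrices which generate `G₂(2)' ≤ GL(6, 2)` in `Pool/Agent/Helper37/Prim/G2Defs.lean`.
-/

namespace Pool.Agent.Helper37.Old.AffineExceptions

open MulAction
open Pool.Agent.Helper37.Prim

/-- The affine exceptions.

1. Let `G` be a `t`-transitive permutation group on the finite set `X`, `|X| = n`,
`2 ≤ t ≤ n`. If `G` is soluble, then `G` is an exception of type (a) iff `t = 2`, `n` is even and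
`n - 1` is prime; never of type (b); of type (c) iff `t = 2` and either `n ≥ 5` is prime or
`n = 2 ^ d` with `d` prime and `n - 1` not prime; of type (d) iff `t = 2` and either `n ≥ 5` is
prime or `n = 2 ^ d` with `d` prime. If `G` has a nontrivial soluble normal subgroup (affine
groups), then `G` is never of type (b); for `t ≥ 3` it is not of any of the four types; for
`t = 2` and `n ≥ 4` it is never `2`-set primitive; and the equivalences above also hold for `G` as
soon as `n` is odd or some point stabiliser has a nontrivial soluble normal subgroup.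
2. A `2`-transitive group of affine semilinear maps of a vector space of dimension at least two
over a finite field with more than two elements is of none of the four types for `t = 2`.
3. Let `V` be a vector space over the field with two elements, `|V| > 4`, with a nondegenerate
alternating form, and let the affine group `G` contain all translations and all products of two
symplectic transvections (`G ≥ 2 ^ (2m) : Sp(2m, 2)`, and `G ≥ 2 ^ 4 : A₆` for `|V| = 16`). Then
`G` is `2`-transitive and, for `t = 2`, of types (a) and (d), and not of types (b) or (c).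
4. The same is true for the affine groups which contain `2 ^ 6 : G₂(2)'`. -/
theorem result :
    (∀ (X : Type) [Finite X] [DecidableEq X] (G : Subgroup (Equiv.Perm X)) (t : ℕ), 2 ≤ t →
      t ≤ Nat.card X → IsMultiplyPretransitive G X t →
      (Group.IsSolvable G →
        (ExcA G X t ↔ t = 2 ∧ Even (Nat.card X) ∧ (Nat.card X - 1).Prime) ∧
        ¬ ExcB G X t ∧
        (ExcC G X t ↔ t = 2 ∧ (((Nat.card X).Prime ∧ 5 ≤ Nat.card X) ∨
          ∃ d : ℕ, d.Prime ∧ Nat.card X = 2 ^ d ∧ ¬ (Nat.card X - 1).Prime)) ∧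
        (ExcD G X t ↔ t = 2 ∧ (((Nat.card X).Prime ∧ 5 ≤ Nat.card X) ∨
          ∃ d : ℕ, d.Prime ∧ Nat.card X = 2 ^ d))) ∧
      ∀ N : Subgroup G, N.Normal → N ≠ ⊥ → Group.IsSolvable N →
        ¬ ExcB G X t ∧
        (3 ≤ t → ¬ ExcA G X t ∧ ¬ ExcC G X t ∧ ¬ ExcD G X t) ∧
        (t = 2 → 4 ≤ Nat.card X → ¬ IsPreprimitive G (Set.powersetCard X 2)) ∧
        ((Odd (Nat.card X) ∨ ∃ (o : X) (A : Subgroup (stabilizer G o)),
            A.Normal ∧ A ≠ ⊥ ∧ Group.IsSolvable A) →
          (ExcA G X t ↔ t = 2 ∧ Even (Nat.card X) ∧ (Nat.card X - 1).Prime) ∧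
          (ExcC G X t ↔ t = 2 ∧ (((Nat.card X).Prime ∧ 5 ≤ Nat.card X) ∨
            ∃ d : ℕ, d.Prime ∧ Nat.card X = 2 ^ d ∧ ¬ (Nat.card X - 1).Prime)) ∧
          (ExcD G X t ↔ t = 2 ∧ (((Nat.card X).Prime ∧ 5 ≤ Nat.card X) ∨
            ∃ d : ℕ, d.Prime ∧ Nat.card X = 2 ^ d)))) ∧
    (∀ (K V : Type) [Field K] [Finite K] [AddCommGroup V] [Module K V] [Finite V]
      [DecidableEq V] (G : Subgroup (Equiv.Perm V)), 2 < Nat.card K → Nat.card K < Nat.card V →
      (∀ g ∈ G, ∃ (σ : K ≃+* K) (f : V → V) (v : V), (∀ x y, f (x + y) = f x + f y) ∧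
        (∀ (c : K) x, f (c • x) = σ c • f x) ∧ ∀ x, g x = f x + v) →
      IsMultiplyPretransitive G V 2 →
      ¬ ExcA G V 2 ∧ ¬ ExcB G V 2 ∧ ¬ ExcC G V 2 ∧ ¬ ExcD G V 2) ∧
    (∀ (V : Type) [AddCommGroup V] [Module (ZMod 2) V] [Finite V] [DecidableEq V]
      (ω : V →ₗ[ZMod 2] V →ₗ[ZMod 2] ZMod 2) (G : Subgroup (Equiv.Perm V)),
      (∀ x, ω x x = 0) → (∀ x, (∀ y, ω x y = 0) → x = 0) → 4 < Nat.card V →
      (∀ v : V, ∃ g ∈ G, ∀ x, g x = x + v) →
      (∀ v w : V, v ≠ 0 → w ≠ 0 → ∃ g ∈ G, ∀ x, g x = tv ω w (tv ω v x)) →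
      (∀ g ∈ G, ∃ (f : V →ₗ[ZMod 2] V) (v : V), ∀ x, g x = f x + v) →
      IsMultiplyPretransitive G V 2 ∧ ExcA G V 2 ∧ ¬ ExcB G V 2 ∧ ¬ ExcC G V 2 ∧ ExcD G V 2) ∧
    (∀ G : Subgroup (Equiv.Perm (Fin 6 → ZMod 2)),
      (∀ v, ∃ g ∈ G, ∀ x, g x = x + v) →
      (∃ g ∈ G, ∀ x, g x = g2A.mulVec x) → (∃ g ∈ G, ∀ x, g x = g2B.mulVec x) →
      (∀ g ∈ G, ∃ (f : (Fin 6 → ZMod 2) →ₗ[ZMod 2] (Fin 6 → ZMod 2)) (v : Fin 6 → ZMod 2),
        ∀ x, g x = f x + v) →
      IsMultiplyPretransitive G (Fin 6 → ZMod 2) 2 ∧ ExcA G (Fin 6 → ZMod 2) 2 ∧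
      ¬ ExcB G (Fin 6 → ZMod 2) 2 ∧ ¬ ExcC G (Fin 6 → ZMod 2) 2 ∧
      ExcD G (Fin 6 → ZMod 2) 2) := by
  refine ⟨?_, ?_, ?_, ?_⟩
  · intro X _ _ G t ht htn hG
    exact solubleAnswer X G t ht htn hG
  · intro K V _ _ _ _ _ _ G hK hKV hG h2
    exact no_exception (by norm_num) (by omega) (not_steiner_affine hK hKV hG h2)
  · intro V _ _ _ _ ω G halt hnd hn hT hS hA
    have h := symp_tprimitive halt hnd hn hT hS
    exact ⟨h.isMultiplyPretransitive, affine_exc (by omega) hA h⟩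
  · intro G hT hA hB hG
    have h := g2_tprimitive hT hA hB
    refine ⟨h.isMultiplyPretransitive, affine_exc ?_ hG h⟩
    rw [Nat.card_eq_fintype_card]
    simp

end Pool.Agent.Helper37.Old.AffineExceptions
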