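import Pool.Agent.Helper37.CiGeneral

/-!
# Systems over `C_i` fields whose degrees are powers of a common integer
-/

namespace Pool.Agent.Results.MP_76ffd5_al.CommonBase

universe u

/-- Let `K` be a `C_i` field (in Lang's sense, for single forms), `i ≥ 0` arbitrary. Then any forms
whose positive degrees `d_j = c ^ a_j` are powers of one integer `c` in `n > ∑ d_j ^ i` variables
have a common nontrivial zero. (Nagata's theorem is the case of equal exponents `a_j`.) -/
theorem result : ∀ (K : Type u) [Field K] (i : ℕ),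
    (∀ (n d : ℕ) (f : MvPolynomial (Fin n) K), 0 < d → f.IsHomogeneous d → d ^ i < n →
      ∃ x : Fin n → K, x ≠ 0 ∧ MvPolynomial.eval x f = 0) →
    ∀ (n r c : ℕ) (a d : Fin r → ℕ) (f : Fin r → MvPolynomial (Fin n) K),
      (∀ j, 0 < d j) → (∀ j, d j = c ^ a j) → (∀ j, (f j).IsHomogeneous (d j)) →
      (∑ j, d j ^ i) < n →
      ∃ x : Fin n → K, x ≠ 0 ∧ ∀ j, MvPolynomial.eval x (f j) = 0 := by
  intro K _ i hK n r c a d f hd hda hf hlt
  exact Helper37.Ci.zeros_of_le f hlt (fun hf0 =>
    Helper37.Ci.common_base_field (Helper37.Ci.ciS_of_zeros hK) f hd hda hf hf0)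

end Pool.Agent.Results.MP_76ffd5_al.CommonBase
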