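import Pool.Agent.Helper59.CI.Main

/-!
# `C_i` fields with extremal systems over finite extensions are strongly `C_i`; `C_2` fields of dimension `> 1` are strongly `C_2`
-/

namespace Pool.Agent.Results.MP_76ffd5_al.ExtremalExtension

universe u

/-- Let `K` be a `C_i` field (in Lang's sense, for single forms). Suppose that
(a) for every prime `p` there are a finite extension `L` of `K`, an integer `e > 1` which is prime to `p` or a power of `p`, and `N ≥ 1` forms of
degree `e` in `N * e ^ i` variables over `L` with only the trivial common zero in `L`; or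
(b) `i = 2` and there are a finite extension `L` of `K`, a finite Galois extension `M` of `L` and an element of `L` that is not a norm from `M`.
Then `K` is strongly `C_i`. In particular, a `C_2` field is strongly `C_2` or all the norm maps in (b) are surjective. -/
theorem result : ∀ (K : Type u) [Field K] (i : ℕ),
    (∀ (n d : ℕ) (f : MvPolynomial (Fin n) K), 0 < d → f.IsHomogeneous d → d ^ i < n →
      ∃ x : Fin n → K, x ≠ 0 ∧ MvPolynomial.eval x f = 0) →
    ((∀ p : ℕ, p.Prime → ∃ (L : Type u) (_ : Field L) (_ : Algebra K L), FiniteDimensional K L ∧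
        ∃ e N : ℕ, 1 < e ∧ 1 ≤ N ∧ (Nat.Coprime e p ∨ ∃ a : ℕ, e = p ^ a) ∧
          ∃ g : Fin N → MvPolynomial (Fin (N * e ^ i)) L, (∀ k, (g k).IsHomogeneous e) ∧
            ∀ x : Fin (N * e ^ i) → L, (∀ k, MvPolynomial.eval x (g k) = 0) → x = 0) ∨
      (i = 2 ∧ ∃ (L M : Type u) (_ : Field L) (_ : Field M) (_ : Algebra K L) (_ : Algebra L M),
        FiniteDimensional K L ∧ FiniteDimensional L M ∧ IsGalois L M ∧ ∃ b : L, ∀ y : M, Algebra.norm L y ≠ b)) →
    ∀ (n r : ℕ) (d : Fin r → ℕ) (f : Fin r → MvPolynomial (Fin n) K),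
      (∀ j, 0 < d j) → (∀ j, (f j).IsHomogeneous (d j)) → (∑ j, d j ^ i) < n →
      ∃ x : Fin n → K, x ≠ 0 ∧ ∀ j, MvPolynomial.eval x (f j) = 0 := by
  intro K _ i hK H n r d f hd hf hlt
  refine Helper37.Ci.zeros_of_le f hlt (fun hf0 =>
    Helper59.CI.extremal_ext (Helper37.Ci.ciS_of_zeros hK) (fun p hp => ?_) f hd hf hf0)
  rcases H with H | ⟨rfl, H⟩
  · obtain ⟨L, _, _, hL, e, N, he, hN, hor, g, hg, hg0⟩ := H p hp
    exact ⟨L, inferInstance, inferInstance, hL, e, N, he, hN, hor, g, hg, hg0⟩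
  · obtain ⟨L, _, _, hL, l, hl, hS⟩ := Helper59.CI.extremal_two H
    refine ⟨L, inferInstance, inferInstance, hL, l, 1, hl.two_le, le_rfl, ?_, hS⟩
    by_cases h : l = p
    · exact Or.inr ⟨1, by rw [pow_one, h]⟩
    · exact Or.inl ((Nat.coprime_primes hl hp).2 h)

end Pool.Agent.Results.MP_76ffd5_al.ExtremalExtension
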