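import Pool.Agent.Helper37.CiGeneral

/-!
# `C_i` fields in which Nagata's bound is attained are strongly `C_i`
-/

namespace Pool.Agent.Results.MP_76ffd5_al.Extremal

universe u

/-- Let `K` be a `C_i` field (in Lang's sense, for single forms). Suppose that for every prime `p`
there are an integer `e > 1` which is either prime to `p` or a power of `p`, and `N ≥ 1` forms of
degree `e` in `N * e ^ i` variables with only the trivial common zero (for `N = 1`: a normic form of
order `i` and degree `e`). Then `K` is strongly `C_i`. The hypothesis holds, for instance, as soon as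
there is one such family whose degree `e > 1` is a prime power. -/
theorem result : ∀ (K : Type u) [Field K] (i : ℕ),
    (∀ (n d : ℕ) (f : MvPolynomial (Fin n) K), 0 < d → f.IsHomogeneous d → d ^ i < n →
      ∃ x : Fin n → K, x ≠ 0 ∧ MvPolynomial.eval x f = 0) →
    (∀ p : ℕ, p.Prime → ∃ e N : ℕ, 1 < e ∧ 1 ≤ N ∧ (Nat.Coprime e p ∨ ∃ a : ℕ, e = p ^ a) ∧
      ∃ g : Fin N → MvPolynomial (Fin (N * e ^ i)) K, (∀ k, (g k).IsHomogeneous e) ∧
        ∀ x : Fin (N * e ^ i) → K, (∀ k, MvPolynomial.eval x (g k) = 0) → x = 0) →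
    ∀ (n r : ℕ) (d : Fin r → ℕ) (f : Fin r → MvPolynomial (Fin n) K),
      (∀ j, 0 < d j) → (∀ j, (f j).IsHomogeneous (d j)) → (∑ j, d j ^ i) < n →
      ∃ x : Fin n → K, x ≠ 0 ∧ ∀ j, MvPolynomial.eval x (f j) = 0 := by
  intro K _ i hK H n r d f hd hf hlt
  refine Helper37.Ci.zeros_of_le f hlt (fun hf0 =>
    Helper37.Ci.extremal_field (Helper37.Ci.ciS_of_zeros hK) (fun p hp => ?_) f hd hf hf0)
  obtain ⟨e, N, he, hN, hor, g, hg, hg0⟩ := H p hp
  exact ⟨e, N, he, hN, hor, g, hg, hg0⟩

end Pool.Agent.Results.MP_76ffd5_al.Extremal
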