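import Pool.Agent.Helper37.GP.Final

/-!
# MP_290158_ag: a bound for exceptional points among multiples, Legendre family

Family: `y² = x (x - 1) (x - t)`, `j = 1`. Definitions are in `Pool.Agent.Helper64.Per.Defs`
(`Qbar`, `BFibre`, `ZClosure`, `HasRelation`), `Pool.Agent.Helper37.GP.Defs2` (`UU`),
`Pool.Agent.Helper37.GP.Defs3` (`PP`, `Exceptional`) and `Pool.Agent.Helper37.GP.Defs5` (`Exc`).
-/

open Pool.Agent.Helper37.GP

namespace Pool.Agent.Helper37.Old.MultipleBound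

/-- For rational `0 < s₀ < 1`, `c ≠ 0` and all `m`, `δ` there is `C` such that, for all `K ≥ 1`
and `s ≥ (K + 1) ^ C`, at most `binom(δ + 4, 4)` of the points `s₀ + c / (k s)`, `1 ≤ k ≤ K`,
carry a relation of degree at most `δ` over some number field of degree at most `m`. -/
theorem result {s₀ c : ℚ} (h0 : 0 < s₀) (h1 : s₀ < 1) (hc : c ≠ 0) (m δ : ℕ) :
    ∃ C : ℕ, ∀ K s : ℕ, 1 ≤ K → (K + 1) ^ C ≤ s →
      Set.ncard {k : ℕ | 1 ≤ k ∧ k ≤ K ∧ k * s ∈ Exc s₀ c m δ} ≤ (δ + 4).choose 4 :=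
  (power_saving h0 h1 hc m δ).2.2

end Pool.Agent.Helper37.Old.MultipleBound
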