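import Pool.Agent.Helper37.Prim.Unital
import Pool.Agent.Helper37.Prim.HS
import Pool.Agent.Helper37.Prim.Co3

/-!
# The other nonaffine `2`-transitive groups (MP_13dc8a_al)

`MulAction.IsMultiplyPretransitive`, `MulAction.IsMultiplyPreprimitive` and
`MulAction.IsPreprimitive G (Set.powersetCard X t)` are `t`-transitivity, `t`-primitivity and
`t`-set primitivity; `SteinerPrimitive` and the four kinds of exceptions `ExcA`, `ExcB`, `ExcC`,
`ExcD` are defined in `Pool/Agent/Helper37/Prim/Defs.lean`. `OnLine X p q r` says that the point `r`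
of `X` lies on the line through `p` and `q`, and `isotropic K σ` is the set of the isotropic points
of the Hermitian form `x₀ σ(y₂) + x₁ σ(y₁) + x₂ σ(y₀)`.
-/

namespace Pool.Agent.Helper37.Old.OtherTwoTransitive

open MulAction
open Pool.Agent.Helper37.Prim
open scoped LinearAlgebra.Projectivization

/-- The following `2`-transitive groups are exceptions of none of the types (a), (b), (c), (d),
for `t = 2`:

1. groups of collineations acting `2`-transitively on a set `X` of points of a projective space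
which contains three collinear points and is not contained in a line;
2. in particular groups of collineations acting `2`-transitively on the set of all points of a
projective space of dimension at least `2` (`PSL(n, q) ≤ G ≤ PΓL(n, q)`, `n ≥ 3`, and `A₇` of
degree `15`),
3. and groups of collineations acting `2`-transitively on a Hermitian unital
(`PSU(3, q) ≤ G ≤ PΓU(3, q)`);
4. groups whose two point stabilisers have exactly one involution, which fixes at least three
points (groups of Ree type);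
5. the Higman-Sims group acting on `176` points;
6. the Conway group `Co₃` acting on `276` points. -/
theorem result :
    (∀ (K V : Type) [Field K] [AddCommGroup V] [Module K V] (X : Set (ℙ K V)) [Finite X]
      [DecidableEq X] (G : Subgroup (Equiv.Perm X)),
      (∀ g ∈ G, ∀ p q r : X, OnLine X p q r → OnLine X (g p) (g q) (g r)) →
      IsMultiplyPretransitive G X 2 →
      (∃ p q r s : X, p ≠ q ∧ r ≠ p ∧ r ≠ q ∧ OnLine X p q r ∧ ¬ OnLine X p q s) →
      ¬ ExcA G X 2 ∧ ¬ ExcB G X 2 ∧ ¬ ExcC G X 2 ∧ ¬ ExcD G X 2) ∧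
    (∀ (K V : Type) [Field K] [AddCommGroup V] [Module K V] [Finite (ℙ K V)]
      [DecidableEq (Set.univ : Set (ℙ K V))]
      (G : Subgroup (Equiv.Perm (Set.univ : Set (ℙ K V)))), 3 ≤ Module.finrank K V →
      (∀ g ∈ G, ∀ p q r, OnLine Set.univ p q r → OnLine Set.univ (g p) (g q) (g r)) →
      IsMultiplyPretransitive G (Set.univ : Set (ℙ K V)) 2 →
      ¬ ExcA G (Set.univ : Set (ℙ K V)) 2 ∧ ¬ ExcB G (Set.univ : Set (ℙ K V)) 2 ∧
      ¬ ExcC G (Set.univ : Set (ℙ K V)) 2 ∧ ¬ ExcD G (Set.univ : Set (ℙ K V)) 2) ∧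
    (∀ (K : Type) [Field K] [Finite K] (σ : K ≃+* K) [DecidableEq (isotropic K σ)]
      (G : Subgroup (Equiv.Perm (isotropic K σ))), (∀ x, σ (σ x) = x) → (∃ x, σ x ≠ x) →
      (∀ g ∈ G, ∀ p q r, OnLine (isotropic K σ) p q r →
        OnLine (isotropic K σ) (g p) (g q) (g r)) →
      IsMultiplyPretransitive G (isotropic K σ) 2 →
      ¬ ExcA G (isotropic K σ) 2 ∧ ¬ ExcB G (isotropic K σ) 2 ∧
      ¬ ExcC G (isotropic K σ) 2 ∧ ¬ ExcD G (isotropic K σ) 2) ∧
    (∀ (X : Type) [Finite X] [DecidableEq X] (G : Subgroup (Equiv.Perm X)),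
      IsMultiplyPretransitive G X 2 →
      (∀ x y : X, x ≠ y → ∃! t : G, t ≠ 1 ∧ t * t = 1 ∧ t • x = x ∧ t • y = y) →
      (∃ (x y z : X) (t : G), x ≠ y ∧ z ≠ x ∧ z ≠ y ∧ t ≠ 1 ∧ t * t = 1 ∧ t • x = x ∧
        t • y = y ∧ t • z = z) →
      ¬ ExcA G X 2 ∧ ¬ ExcB G X 2 ∧ ¬ ExcC G X 2 ∧ ¬ ExcD G X 2) ∧
    (IsMultiplyPretransitive HS (Fin 176) 2 ∧ IsMultiplyPreprimitive HS (Fin 176) 2 ∧
      IsPreprimitive HS (Set.powersetCard (Fin 176) 2) ∧
      ¬ ExcA HS (Fin 176) 2 ∧ ¬ ExcB HS (Fin 176) 2 ∧ ¬ ExcC HS (Fin 176) 2 ∧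
      ¬ ExcD HS (Fin 176) 2) ∧
    (IsMultiplyPretransitive Co3 (Fin 276) 2 ∧ IsMultiplyPreprimitive Co3 (Fin 276) 2 ∧
      IsPreprimitive Co3 (Set.powersetCard (Fin 276) 2) ∧
      ¬ ExcA Co3 (Fin 276) 2 ∧ ¬ ExcB Co3 (Fin 276) 2 ∧ ¬ ExcC Co3 (Fin 276) 2 ∧
      ¬ ExcD Co3 (Fin 276) 2) := by
  refine ⟨?_, ?_, ?_, ?_, ?_, ?_⟩
  · rintro K V _ _ _ X _ _ G hG h2 ⟨p, q, r, s, hpq, hrp, hrq, hr, hs⟩
    have hcard : 2 ≤ Nat.card X := by
      have : Nontrivial X := ⟨p, q, hpq⟩
      have := Finite.one_lt_card_iff_nontrivial.2 this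
      omega
    exact no_exception (by norm_num) hcard (not_steiner_projective hG h2 hpq hrp hrq hr hs)
  · intro K V _ _ _ _ _ G hV hG h2
    have h := not_steiner_PG hV hG h2
    have hcard : 2 ≤ Nat.card (Set.univ : Set (ℙ K V)) := by
      have : Nontrivial V := Module.nontrivial_of_finrank_pos (R := K) (by omega)
      by_contra hlt
      apply h
      rintro ⟨k, B, hk, hkn, -, -⟩
      omega
    exact no_exception (by norm_num) hcard h
  · intro K _ _ σ _ G hσ hσ1 hG h2
    have : Finite (isotropic K σ) := Subtype.finite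
    have h := not_steiner_unital hσ hσ1 hG h2
    have hcard : 2 ≤ Nat.card (isotropic K σ) := by
      by_contra hlt
      apply h
      rintro ⟨k, B, hk, hkn, -, -⟩
      omega
    exact no_exception (by norm_num) hcard h
  · rintro X _ _ G h2 hinv ⟨x, y, z, t, hxy, hzx, hzy, ht, htt, htx, hty, htz⟩
    have hcard : 2 ≤ Nat.card X := by
      have : Nontrivial X := ⟨x, y, hxy⟩
      have := Finite.one_lt_card_iff_nontrivial.2 this
      omega
    exact no_exception (by norm_num) hcard
      (not_steiner_of_involution h2 hinv hxy ht htt htx hty htz hzx hzy)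
  · exact ⟨hs_two_trans, hs_tprimitive, hs_tset, fun h => h.2 hs_tset,
      fun h => h.2 hs_tprimitive, fun h => h.2 hs_tprimitive, fun h => h.2 hs_tset⟩
  · exact ⟨co_two_trans, co_tprimitive, co_tset, fun h => h.2 co_tset,
      fun h => h.2 co_tprimitive, fun h => h.2 co_tprimitive, fun h => h.2 co_tset⟩

end Pool.Agent.Helper37.Old.OtherTwoTransitive
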