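import Pool.Agent.Helper37.Prim.Proj2Neg

/-!
# The exceptions with `t = 2` between `PSL(2, q)` and `PΓL(2, q)` (MP_13dc8a_al)

`MulAction.IsMultiplyPretransitive`, `MulAction.IsMultiplyPreprimitive` and
`MulAction.IsPreprimitive G (Set.powersetCard X t)` are `t`-transitivity, `t`-primitivity and
`t`-set primitivity; `SteinerPrimitive` and the four kinds of exceptions `ExcA`, `ExcB`, `ExcC`,
`ExcD` are defined in `Pool/Agent/Helper37/Prim/Defs.lean`. The groups `PSL(2, K)` and `PΓL(2, K)`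
of permutations of the projective line `K ∪ {∞}` are defined in
`Pool/Agent/Helper37/Prim/ProjDefs.lean`, the group `PΣL(2, K)`, generated by `PSL(2, K)` and the
field automorphisms, in `Pool/Agent/Helper37/Prim/Proj2Pos.lean`.
-/

namespace Pool.Agent.Helper37.Old.ProjectiveLineTwo

open MulAction
open Pool.Agent.Helper37.Prim

/-- Exceptions with `t = 2` on the projective line. Let `K` be a finite field with `q` elements
and `PSL(2, K) ≤ G ≤ PΓL(2, K)`, acting on the `q + 1` points of the projective line. Then `G` is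
`2`-transitive and `2`-primitive, hence never of type (b) or (c), and `G` is of type (a), and of
type (d), iff `q = 3`, or `q = 5`, or `q ∈ {7, 11}` and `G = PSL(2, q)`, or `q = 9` and
`G ≤ PΣL(2, 9)`. -/
theorem result (K : Type) [Field K] [Finite K] [DecidableEq K] [DecidableEq (OnePoint K)]
    (G : Subgroup (Equiv.Perm (OnePoint K))) (h : PSL K ≤ G) (h' : G ≤ PGammaL K) :
    IsMultiplyPretransitive G (OnePoint K) 2 ∧ IsMultiplyPreprimitive G (OnePoint K) 2 ∧
    (ExcA G (OnePoint K) 2 ↔ Nat.card K = 3 ∨ Nat.card K = 5 ∨ (Nat.card K = 7 ∧ G = PSL K) ∨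
      (Nat.card K = 9 ∧ G ≤ PSigmaL K) ∨ (Nat.card K = 11 ∧ G = PSL K)) ∧
    ¬ ExcB G (OnePoint K) 2 ∧ ¬ ExcC G (OnePoint K) 2 ∧
    (ExcD G (OnePoint K) 2 ↔ Nat.card K = 3 ∨ Nat.card K = 5 ∨ (Nat.card K = 7 ∧ G = PSL K) ∨
      (Nat.card K = 9 ∧ G ≤ PSigmaL K) ∨ (Nat.card K = 11 ∧ G = PSL K)) := by
  have hfinite : Finite (OnePoint K) := inferInstanceAs (Finite (Option K))
  have hpr := tprimitive_of_PSL_le h
  have hcard : 2 ≤ Nat.card (OnePoint K) := by
    have h1 : Nat.card (OnePoint K) = Nat.card K + 1 := Finite.card_option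
    have h2 : 1 ≤ Nat.card K := Finite.card_pos
    omega
  have hst : SteinerPrimitive G (OnePoint K) 2 :=
    SteinerPrimitive.of_tprimitive (by norm_num) hcard hpr
  have key : ¬ IsPreprimitive G (Set.powersetCard (OnePoint K) 2) ↔
      (Nat.card K = 3 ∨ Nat.card K = 5 ∨ (Nat.card K = 7 ∧ G = PSL K) ∨
        (Nat.card K = 9 ∧ G ≤ PSigmaL K) ∨ (Nat.card K = 11 ∧ G = PSL K)) := by
    have e : (Nat.card K = 3 ∨ Nat.card K = 5 ∨ (Nat.card K = 7 ∧ G = PSL K) ∨
        (Nat.card K = 9 ∧ G ≤ PSigmaL K) ∨ (Nat.card K = 11 ∧ G = PSL K)) ↔ ExcList K G := by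
      have e1 : G = PSL K ↔ G ≤ PSL K := ⟨fun h0 => h0.le, fun h0 => le_antisymm h0 h⟩
      unfold ExcList
      rw [e1]
    rw [e]
    constructor
    · intro h0
      by_contra h1
      exact h0 (tsetprimitive_of_not_excList h h' h1)
    · exact not_tsetprimitive_of_excList h h'
  refine ⟨two_trans_of_PSL_le h, hpr, ?_, fun h0 => h0.2 hpr, fun h0 => h0.2 hpr, ?_⟩
  · rw [← key]
    exact ⟨fun h0 => h0.2, fun h0 => ⟨hpr, h0⟩⟩
  · rw [← key]
    exact ⟨fun h0 => h0.2, fun h0 => ⟨hst, h0⟩⟩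

end Pool.Agent.Helper37.Old.ProjectiveLineTwo
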