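import Pool.Agent.Helper37.Prim.Proj3Final
import Pool.Agent.Helper37.Prim.M11
import Pool.Agent.Helper37.Prim.Alt

/-!
# The exceptions with `t ≥ 3` (MP_13dc8a_al)

`MulAction.IsMultiplyPretransitive`, `MulAction.IsMultiplyPreprimitive` and
`MulAction.IsPreprimitive G (Set.powersetCard X t)` are `t`-transitivity, `t`-primitivity and
`t`-set primitivity; `SteinerPrimitive` and the four kinds of exceptions `ExcA`, `ExcB`, `ExcC`,
`ExcD` are defined in `Pool/Agent/Helper37/Prim/Defs.lean`, the group `PΓL(2, K)` acting on the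
projective line `K ∪ {∞}` in `Pool/Agent/Helper37/Prim/ProjDefs.lean` and the group `M₁₁` in its
action of degree `12` in `Pool/Agent/Helper37/Prim/M11.lean`.
-/

namespace Pool.Agent.Helper37.Old.ThreeTransitive

open MulAction
open Pool.Agent.Helper37.Prim

/-- Exceptions with `t ≥ 3`.

* Let `K` be a finite field with `q` elements and `G ≤ PΓL(2, K)` a group which is `t`-transitive
  on the `q + 1` points of the projective line. Then `G` is of type (a) iff `t = 3`, `q ≥ 5` and
  `q - 1` is prime; never of type (b); of type (d) iff `t = 3`, `q ≥ 5` and `q` is prime or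
  `q = 2 ^ d` with `d` prime; and of type (c) iff, in addition, `q - 1` is not prime.
* The Mathieu group `M₁₁` on `12` points is `3`-transitive; for `t = 3` it is of type (a) and
  of type (d), and not of type (b) or (c).
* If `G` contains the alternating group of degree `n` and is `t`-transitive, `t ≤ n`, then it is
  never of type (b) or (c), and it is of type (a), and of type (d), iff `n = 2 t`. -/
theorem result :
    (∀ (K : Type) [Field K] [Finite K] [DecidableEq K] [DecidableEq (OnePoint K)]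
      (G : Subgroup (Equiv.Perm (OnePoint K))) (t : ℕ), 3 ≤ t → t ≤ Nat.card K + 1 →
      G ≤ PGammaL K → IsMultiplyPretransitive G (OnePoint K) t →
      (ExcA G (OnePoint K) t ↔ t = 3 ∧ 5 ≤ Nat.card K ∧ (Nat.card K - 1).Prime) ∧
      ¬ ExcB G (OnePoint K) t ∧
      (ExcC G (OnePoint K) t ↔ t = 3 ∧ 5 ≤ Nat.card K ∧ ¬ (Nat.card K - 1).Prime ∧
        ((Nat.card K).Prime ∨ ∃ d : ℕ, d.Prime ∧ Nat.card K = 2 ^ d)) ∧
      (ExcD G (OnePoint K) t ↔ t = 3 ∧ 5 ≤ Nat.card K ∧
        ((Nat.card K).Prime ∨ ∃ d : ℕ, d.Prime ∧ Nat.card K = 2 ^ d))) ∧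
    (IsMultiplyPretransitive M11 (Fin 12) 3 ∧ ExcA M11 (Fin 12) 3 ∧ ¬ ExcB M11 (Fin 12) 3 ∧
      ¬ ExcC M11 (Fin 12) 3 ∧ ExcD M11 (Fin 12) 3) ∧
    (∀ (X : Type) [Fintype X] [DecidableEq X] (G : Subgroup (Equiv.Perm X)) (t : ℕ), 3 ≤ t →
      t ≤ Nat.card X → alternatingGroup X ≤ G → IsMultiplyPretransitive G X t →
      (ExcA G X t ↔ Nat.card X = 2 * t) ∧ ¬ ExcB G X t ∧ ¬ ExcC G X t ∧
      (ExcD G X t ↔ Nat.card X = 2 * t)) := by
  refine ⟨?_, ?_, ?_⟩
  · intro K _ _ _ _ G t ht htn hG hGt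
    exact projAnswer ht htn G hG hGt
  · have h12 : (3 : ℕ) ≤ Nat.card (Fin 12) := by
      rw [Nat.card_eq_fintype_card, Fintype.card_fin]; norm_num
    exact ⟨m11_three_trans, ⟨m11_tprimitive, m11_not_tsetprimitive⟩,
      fun h => h.2 m11_tprimitive, fun h => h.2 m11_tprimitive,
      ⟨SteinerPrimitive.of_tprimitive (by norm_num) h12 m11_tprimitive,
        m11_not_tsetprimitive⟩⟩
  · intro X _ _ G t ht htn hA hG
    exact altAnswer ht htn G hA hG

end Pool.Agent.Helper37.Old.ThreeTransitive
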