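import Pool.Agent.Helper37.CiGeneral

/-!
# Systems over `C_i` fields whose degrees avoid a suitable prime
-/

namespace Pool.Agent.Results.MP_76ffd5_al.TwoPrimes

universe u

/-- Let `K` be a `C_i` field (in Lang's sense, for single forms). Then for every prime `p` there is
a prime `q ≠ p` such that all forms of positive degrees `d_j` not divisible by `q` in
`n > ∑ d_j ^ i` variables have a common nontrivial zero. In particular (start with any `p` to get
`q`, then take `p := q`) there are two different primes such that `(*)_i` holds for all systems whose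
degrees avoid one of them. -/
theorem result : ∀ (K : Type u) [Field K] (i : ℕ),
    (∀ (n d : ℕ) (f : MvPolynomial (Fin n) K), 0 < d → f.IsHomogeneous d → d ^ i < n →
      ∃ x : Fin n → K, x ≠ 0 ∧ MvPolynomial.eval x f = 0) →
    ∀ p : ℕ, p.Prime → ∃ q : ℕ, q.Prime ∧ q ≠ p ∧
      ∀ (n r : ℕ) (d : Fin r → ℕ) (f : Fin r → MvPolynomial (Fin n) K),
        (∀ j, 0 < d j) → (∀ j, ¬ q ∣ d j) → (∀ j, (f j).IsHomogeneous (d j)) →
        (∑ j, d j ^ i) < n →
        ∃ x : Fin n → K, x ≠ 0 ∧ ∀ j, MvPolynomial.eval x (f j) = 0 := by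
  intro K _ i hK p hp
  obtain ⟨q, hq, hne, H⟩ := Helper37.Ci.two_primes_field (Helper37.Ci.ciS_of_zeros hK) hp
  refine ⟨q, hq, hne, fun n r d f hd hcop hf hlt => ?_⟩
  exact Helper37.Ci.zeros_of_le f hlt (fun hf0 => H n r d f hd
    (fun j => ((Nat.Prime.coprime_iff_not_dvd hq).mpr (hcop j)).symm) hf hf0)

end Pool.Agent.Results.MP_76ffd5_al.TwoPrimes
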